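import Pool.Agent.Q217.MM.Step

set_option autoImplicit false

open Filter Topology

namespace Pool.Agent.Q217.MM

/-- asymptotic lower bound -/
def Low (x : ℕ → ℤ → ℝ) (F : ℤ → ℝ) : Prop := ∀ δ > 0, ∀ᶠ n in atTop, ∀ i, F i - δ ≤ x n i

/-- asymptotic upper bound -/
def Up (x : ℕ → ℤ → ℝ) (F : ℤ → ℝ) : Prop := ∀ δ > 0, ∀ᶠ n in atTop, ∀ i, x n i ≤ F i + δ

theorem box_all {x : ℕ → ℤ → ℝ} (h0 : Box (x 0)) (hx : ∀ n, x (n + 1) = Psi (x n)) (n : ℕ) :
    Box (x n) := by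
  induction n with
  | zero => exact h0
  | succ n ih => rw [hx]; exact Psi_box ih

theorem iterA {x : ℕ → ℤ → ℝ} (h0 : Box (x 0)) (hx : ∀ n, x (n + 1) = Psi (x n))
    {F : ℤ → ℝ} (hF : Orb F) {ε : ℝ} (hε : 0 ≤ ε) (hε1 : ε ≤ 1 / 128) (N : ℕ)
    (hN : ∀ i, F i - ε ≤ x N i) (k : ℤ) (hk : 384 * ε < F k) :
    ∃ F₂, Orb F₂ ∧ F k - 384 * ε ≤ F₂ k ∧ Low x F₂ := by
  -- the sequence
  have step : ∀ (n : ℕ) (E : ℤ → ℝ), Orb E → ∃ E', Orb E' ∧ (∀ i, E' i ≤ E i) ∧
      (∀ i, E i ≤ E' i + 96 * ((3 / 4) ^ n * ε)) ∧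
      ∀ y, Box y → (∀ i, E i - (3 / 4) ^ n * ε ≤ y i) → ∀ i, E' i - (3 / 4) ^ (n + 1) * ε ≤ Psi y i := by
    intro n E hE
    have h1 : (0 : ℝ) ≤ (3 / 4) ^ n * ε := by positivity
    have h2 : (3 / 4 : ℝ) ^ n * ε ≤ 1 / 128 := by
      have : (3 / 4 : ℝ) ^ n ≤ 1 := pow_le_one₀ (by norm_num) (by norm_num)
      nlinarith
    obtain ⟨E', e1, e2, e3, e4⟩ := lemmaA hE h1 h2
    refine ⟨E', e1, e2, e3, fun y hy hyE i => ?_⟩
    have := e4 y hy hyE i
    rw [pow_succ]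
    linarith
  choose! T hT1 hT2 hT3 hT4 using step
  let Fs : ℕ → ℤ → ℝ := fun n => Nat.rec F (fun m E => T m E) n
  have Fs0 : Fs 0 = F := rfl
  have FsS : ∀ n, Fs (n + 1) = T n (Fs n) := fun n => rfl
  have hO : ∀ n, Orb (Fs n) := by
    intro n
    induction n with
    | zero => exact hF
    | succ n ih => rw [FsS]; exact hT1 n _ ih
  have hanti : ∀ n i, Fs (n + 1) i ≤ Fs n i := fun n i => by rw [FsS]; exact hT2 n _ (hO n) i
  have hlow : ∀ n i, Fs n i - (3 / 4) ^ n * ε ≤ x (N + n) i := by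
    intro n
    induction n with
    | zero => intro i; simpa [Fs0] using hN i
    | succ n ih =>
      intro i
      rw [FsS, ← add_assoc, hx]
      exact hT4 n _ (hO n) _ (box_all h0 hx _) ih i
  have hdrift : ∀ n i, F i - 384 * ε * (1 - (3 / 4) ^ n) ≤ Fs n i := by
    intro n
    induction n with
    | zero => intro i; simp [Fs0]
    | succ n ih =>
      intro i
      have h1 := hT3 n _ (hO n) i
      rw [← FsS] at h1
      have h2 := ih i
      have h3 : (3 / 4 : ℝ) ^ (n + 1) = (3 / 4) ^ n * (3 / 4) := pow_succ _ _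
      rw [h3]
      nlinarith
  have hA : Antitone fun n => Fs n k := antitone_nat_of_succ_le fun n => hanti n k
  have hlb : ∀ n, F k - 384 * ε ≤ Fs n k := by
    intro n
    have h1 := hdrift n k
    have h2 : (0 : ℝ) ≤ (3 / 4) ^ n * ε := by positivity
    nlinarith
  have hbdd : BddBelow (Set.range fun n => Fs n k) := ⟨F k - 384 * ε, by
    rintro _ ⟨n, rfl⟩
    exact hlb n⟩
  set a := ⨅ n, Fs n k with ha
  have ha1 : F k - 384 * ε ≤ a := le_ciInf hlb
  have ha2 : ∀ n, a ≤ Fs n k := fun n => ciInf_le hbdd n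
  obtain ⟨F₂, hF₂, hF₂k⟩ := exists_orb k (α := a) (by linarith) (by
    have := ha2 0
    have := (hO 0).lt_one k
    linarith)
  refine ⟨F₂, hF₂, by rw [hF₂k]; exact ha1, fun δ hδ => ?_⟩
  have hle : ∀ n i, F₂ i ≤ Fs n i := fun n i =>
    (hF₂.le_iff (hO n) k i).mp (by rw [hF₂k]; exact ha2 n)
  have ht : Tendsto (fun n : ℕ => (3 / 4 : ℝ) ^ n * ε) atTop (𝓝 0) := by
    have := (tendsto_pow_atTop_nhds_zero_of_lt_one (by norm_num : (0 : ℝ) ≤ 3 / 4) (by norm_num)).mul_const ε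
    simpa using this
  obtain ⟨n0, hn0⟩ := eventually_atTop.mp (ht.eventually (Iio_mem_nhds hδ))
  filter_upwards [eventually_ge_atTop (N + n0)] with n hn i
  obtain ⟨m, rfl⟩ := Nat.exists_eq_add_of_le ((Nat.le_add_right N n0).trans hn)
  have h1 := hlow m i
  have h2 := hle m i
  have h3 : (3 / 4 : ℝ) ^ m * ε < δ := hn0 m (by omega)
  linarith

theorem iterB {x : ℕ → ℤ → ℝ} (h0 : Box (x 0)) (hx : ∀ n, x (n + 1) = Psi (x n))
    {F : ℤ → ℝ} (hF : Orb F) {ε : ℝ} (hε : 0 ≤ ε) (hε1 : ε ≤ 1 / 128) (N : ℕ)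
    (hN : ∀ i, x N i ≤ F i + ε) (k : ℤ) (hk : F k + 384 * ε < 1) :
    ∃ F₂, Orb F₂ ∧ F₂ k ≤ F k + 384 * ε ∧ Up x F₂ := by
  have step : ∀ (n : ℕ) (E : ℤ → ℝ), Orb E → ∃ E', Orb E' ∧ (∀ i, E i ≤ E' i) ∧
      (∀ i, E' i ≤ E i + 96 * ((3 / 4) ^ n * ε)) ∧
      ∀ y, Box y → (∀ i, y i ≤ E i + (3 / 4) ^ n * ε) → ∀ i, Psi y i ≤ E' i + (3 / 4) ^ (n + 1) * ε := by
    intro n E hE
    have h1 : (0 : ℝ) ≤ (3 / 4) ^ n * ε := by positivity
    have h2 : (3 / 4 : ℝ) ^ n * ε ≤ 1 / 128 := by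
      have : (3 / 4 : ℝ) ^ n ≤ 1 := pow_le_one₀ (by norm_num) (by norm_num)
      nlinarith
    obtain ⟨E', e1, e2, e3, e4⟩ := lemmaB hE h1 h2
    refine ⟨E', e1, e2, e3, fun y hy hyE i => ?_⟩
    have := e4 y hy hyE i
    rw [pow_succ]
    linarith
  choose! T hT1 hT2 hT3 hT4 using step
  let Fs : ℕ → ℤ → ℝ := fun n => Nat.rec F (fun m E => T m E) n
  have Fs0 : Fs 0 = F := rfl
  have FsS : ∀ n, Fs (n + 1) = T n (Fs n) := fun n => rfl
  have hO : ∀ n, Orb (Fs n) := by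
    intro n
    induction n with
    | zero => exact hF
    | succ n ih => rw [FsS]; exact hT1 n _ ih
  have hmono : ∀ n i, Fs n i ≤ Fs (n + 1) i := fun n i => by rw [FsS]; exact hT2 n _ (hO n) i
  have hup : ∀ n i, x (N + n) i ≤ Fs n i + (3 / 4) ^ n * ε := by
    intro n
    induction n with
    | zero => intro i; simpa [Fs0] using hN i
    | succ n ih =>
      intro i
      rw [FsS, ← add_assoc, hx]
      exact hT4 n _ (hO n) _ (box_all h0 hx _) ih i
  have hdrift : ∀ n i, Fs n i ≤ F i + 384 * ε * (1 - (3 / 4) ^ n) := by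
    intro n
    induction n with
    | zero => intro i; simp [Fs0]
    | succ n ih =>
      intro i
      have h1 := hT3 n _ (hO n) i
      rw [← FsS] at h1
      have h2 := ih i
      have h3 : (3 / 4 : ℝ) ^ (n + 1) = (3 / 4) ^ n * (3 / 4) := pow_succ _ _
      rw [h3]
      nlinarith
  have hub : ∀ n, Fs n k ≤ F k + 384 * ε := by
    intro n
    have h1 := hdrift n k
    have h2 : (0 : ℝ) ≤ (3 / 4) ^ n * ε := by positivity
    nlinarith
  have hbdd : BddAbove (Set.range fun n => Fs n k) := ⟨F k + 384 * ε, by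
    rintro _ ⟨n, rfl⟩
    exact hub n⟩
  set a := ⨆ n, Fs n k with ha
  have ha1 : a ≤ F k + 384 * ε := ciSup_le hub
  have ha2 : ∀ n, Fs n k ≤ a := fun n => le_ciSup hbdd n
  obtain ⟨F₂, hF₂, hF₂k⟩ := exists_orb k (α := a) (by
    have := ha2 0
    have := (hO 0).pos k
    linarith) (by linarith)
  refine ⟨F₂, hF₂, by rw [hF₂k]; exact ha1, fun δ hδ => ?_⟩
  have hle : ∀ n i, Fs n i ≤ F₂ i := fun n i =>
    ((hO n).le_iff hF₂ k i).mp (by rw [hF₂k]; exact ha2 n)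
  have ht : Tendsto (fun n : ℕ => (3 / 4 : ℝ) ^ n * ε) atTop (𝓝 0) := by
    have := (tendsto_pow_atTop_nhds_zero_of_lt_one (by norm_num : (0 : ℝ) ≤ 3 / 4) (by norm_num)).mul_const ε
    simpa using this
  obtain ⟨n0, hn0⟩ := eventually_atTop.mp (ht.eventually (Iio_mem_nhds hδ))
  filter_upwards [eventually_ge_atTop (N + n0)] with n hn i
  obtain ⟨m, rfl⟩ := Nat.exists_eq_add_of_le ((Nat.le_add_right N n0).trans hn)
  have h1 := hup m i
  have h2 := hle m i
  have h3 : (3 / 4 : ℝ) ^ m * ε < δ := hn0 m (by omega)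
  linarith

/-- strict positivity -/
theorem Psi_strict {F y : ℤ → ℝ} (hF : Orb F) (hy : Box y) (hFy : ∀ i, F i ≤ y i) (j : ℤ)
    (hj : F j < y j) (i : ℤ) (h1 : j - 1 ≤ i) (h2 : i ≤ j + 1) : F i < Psi y i := by
  rw [← hF.Psi_eq i]
  unfold Psi
  refine pow_lt_pow_left₀ ?_ (GG_nonneg hF.box i) (by norm_num)
  unfold GG
  have a1 := hFy (i - 1)
  have a2 := hFy i
  have a3 := hFy (i + 1)
  have b1 := hy (i - 1)
  have b2 := hy i
  have b3 := hy (i + 1)
  have c1 := hF.lt_one (i - 1)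
  have c2 := hF.lt_one i
  have c3 := hF.lt_one (i + 1)
  have k1 := sq_anti (a := (F (i - 1) + F i) / 2) (b := (y (i - 1) + y i) / 2) (by linarith) (by linarith)
  have k2 := sq_anti (a := (F i + F (i + 1)) / 2) (b := (y i + y (i + 1)) / 2) (by linarith) (by linarith)
  obtain rfl | rfl | rfl : i = j - 1 ∨ i = j ∨ i = j + 1 := by omega
  · rw [show j - 1 + 1 = j by ring] at a3 b3 c3 k2 ⊢
    have k3 : (1 - (y (j - 1) + y j) / 2) ^ 2 < (1 - (F (j - 1) + F j) / 2) ^ 2 :=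
      pow_lt_pow_left₀ (by linarith) (by linarith) (by norm_num)
    linarith
  · have k3 : (1 - (y i + y (i + 1)) / 2) ^ 2 < (1 - (F i + F (i + 1)) / 2) ^ 2 :=
      pow_lt_pow_left₀ (by linarith) (by linarith) (by norm_num)
    linarith
  · rw [show j + 1 - 1 = j by ring] at a1 b1 c1 k1 ⊢
    have k3 : (1 - (y j + y (j + 1)) / 2) ^ 2 < (1 - (F j + F (j + 1)) / 2) ^ 2 :=
      pow_lt_pow_left₀ (by linarith) (by linarith) (by norm_num)
    linarith

theorem iter_strict {F y : ℤ → ℝ} (hF : Orb F) (hy : Box y) (hFy : ∀ i, F i ≤ y i) (j : ℤ)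
    (hj : F j < y j) (K : ℕ) :
    Box (Psi^[K] y) ∧ (∀ i, F i ≤ Psi^[K] y i) ∧
      ∀ i, j - K ≤ i → i ≤ j + K → F i < Psi^[K] y i := by
  induction K with
  | zero =>
    refine ⟨hy, hFy, fun i h1 h2 => ?_⟩
    have : i = j := by
      push_cast at h1 h2
      omega
    subst this
    exact hj
  | succ K ih =>
    obtain ⟨i1, i2, i3⟩ := ih
    rw [Function.iterate_succ_apply']
    refine ⟨Psi_box i1, fun i => ?_, fun i h1 h2 => ?_⟩
    · rw [← hF.Psi_eq i]
      exact Psi_mono hF.box i1 i2 i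
    · push_cast at h1 h2
      -- a neighbour within distance K
      obtain ⟨l, hl1, hl2, hl3, hl4⟩ : ∃ l : ℤ, j - K ≤ l ∧ l ≤ j + K ∧ l - 1 ≤ i ∧ i ≤ l + 1 := by
        rcases lt_trichotomy i j with hlt | heq | hgt
        · exact ⟨i + 1, by omega, by omega, by omega, by omega⟩
        · exact ⟨i, by omega, by omega, by omega, by omega⟩
        · exact ⟨i - 1, by omega, by omega, by omega, by omega⟩
      exact Psi_strict hF i1 i2 l (i3 l hl1 hl2) i hl3 hl4

theorem iter_x {x : ℕ → ℤ → ℝ} (hx : ∀ n, x (n + 1) = Psi (x n)) (m K : ℕ) :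
    Psi^[K] (x m) = x (m + K) := by
  induction K with
  | zero => rfl
  | succ K ih => rw [Function.iterate_succ_apply', ih, ← add_assoc, hx]

theorem Psi_cont : Continuous Psi := by
  unfold Psi GG
  fun_prop

theorem main {x : ℕ → ℤ → ℝ} (h0 : ∀ i, x 0 i = if 0 ≤ i then 1 else 0)
    (hx : ∀ n, x (n + 1) = Psi (x n)) :
    ∃ F, Orb F ∧ ∀ i, Tendsto (fun n => x n i) atTop (𝓝 (F i)) := by
  have hbox0 : Box (x 0) := fun i => by
    rw [h0]
    split_ifs <;> norm_num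
  have hbox := box_all hbox0 hx
  -- lower barrier
  obtain ⟨L, hL, hLlow⟩ : ∃ L, Orb L ∧ Low x L := by
    obtain ⟨F, hF, hF3⟩ := exists_orb 3 (α := 1 / 2) (by norm_num) (by norm_num)
    have f2 := hF.prev_le 2
    have f1 := hF.prev_le 1
    have f0 := hF.prev_le 0
    have fm := hF.prev_le (-1)
    norm_num [hF3] at f2 f1 f0 fm
    have p2 := hF.pos 2
    have p1 := hF.pos 1
    have p0 := hF.pos 0
    have g1 : F 1 ≤ 1 / 16 := by nlinarith
    have g0 : F 0 ≤ 1 / 256 := by nlinarith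
    have gm : F (-1) ≤ 1 / 2000 := by nlinarith
    obtain ⟨F₂, hF₂, _, hl⟩ := iterA hbox0 hx hF (ε := 1 / 2000) (by norm_num) (by norm_num) 0
      (fun i => by
        rw [h0]
        split_ifs with hi
        · linarith [hF.lt_one i]
        · have := hF.strictMono.monotone (show i ≤ -1 by omega)
          linarith) 3 (by rw [hF3]; norm_num)
    exact ⟨F₂, hF₂, hl⟩
  -- upper barrier
  obtain ⟨U, hU, hUup⟩ : ∃ U, Orb U ∧ Up x U := by
    obtain ⟨F, hF, hF3⟩ := exists_orb (-4) (α := 1 / 2) (by norm_num) (by norm_num)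
    have f2 := hF.one_sub_next (-4)
    have f1 := hF.one_sub_next (-3)
    have f0 := hF.one_sub_next (-2)
    have fm := hF.one_sub_next (-1)
    norm_num [hF3] at f2 f1 f0 fm
    have p2 := hF.lt_one (-3)
    have p1 := hF.lt_one (-2)
    have p0 := hF.lt_one (-1)
    have g1 : 1 - F (-2) ≤ 1 / 16 := by nlinarith
    have g0 : 1 - F (-1) ≤ 1 / 256 := by nlinarith
    have gm : 1 - F 0 ≤ 1 / 2000 := by nlinarith
    obtain ⟨F₂, hF₂, _, hl⟩ := iterB hbox0 hx hF (ε := 1 / 2000) (by norm_num) (by norm_num) 0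
      (fun i => by
        rw [h0]
        split_ifs with hi
        · have := hF.strictMono.monotone hi
          linarith
        · linarith [hF.pos i]) (-4) (by rw [hF3]; norm_num)
    exact ⟨F₂, hF₂, hl⟩
  -- the supremum
  set A : Set ℝ := {α | ∃ F, Orb F ∧ F 0 = α ∧ Low x F} with hA
  have hAne : A.Nonempty := ⟨L 0, L, hL, rfl, hLlow⟩
  have hAub : ∀ α ∈ A, α ≤ U 0 := by
    rintro α ⟨F, hF, rfl, hl⟩
    refine le_of_forall_pos_le_add fun δ hδ => ?_
    obtain ⟨n, hn1, hn2⟩ := ((hl (δ / 2) (by linarith)).and (hUup (δ / 2) (by linarith))).exists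
    have := hn1 0
    have := hn2 0
    linarith
  have hAbdd : BddAbove A := ⟨U 0, hAub⟩
  set α := sSup A with hα
  have hα1 : L 0 ≤ α := le_csSup hAbdd ⟨L, hL, rfl, hLlow⟩
  have hα2 : α ≤ U 0 := csSup_le hAne hAub
  obtain ⟨F, hF, hF0⟩ := exists_orb 0 (α := α) (by linarith [hL.pos 0]) (by linarith [hU.lt_one 0])
  obtain ⟨k, hk1, hk2⟩ := hF.exists_mid
  have hFlow : Low x F := by
    intro δ hδ
    set s := min (δ / 12) (1 / 8) with hs
    have hs0 : 0 < s := lt_min (by linarith) (by norm_num)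
    have hs1 : s ≤ δ / 12 := min_le_left _ _
    have hs2 : s ≤ 1 / 8 := min_le_right _ _
    obtain ⟨F₁, hF₁, hF₁k⟩ := exists_orb k (α := F k - s) (by linarith) (by linarith)
    have hp : Pos F₁ F k := ⟨hF₁, hF, by linarith, by linarith, by linarith, hk1, by linarith⟩
    have h1 : F₁ 0 < F 0 := (hF₁.lt_iff hF k 0).mp (by linarith)
    rw [hF0] at h1
    obtain ⟨β, ⟨F', hF', hF'0, hl⟩, hβ⟩ := exists_lt_of_lt_csSup hAne h1
    have h2 : ∀ i, F₁ i ≤ F' i := fun i => (hF₁.le_iff hF' 0 i).mp (by linarith)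
    filter_upwards [hl (δ / 2) (by linarith)] with n hn i
    have h3 := hn i
    have h4 := h2 i
    have h5 := hp.bound i
    rw [hF₁k] at h5
    linarith
  refine ⟨F, hF, ?_⟩
  by_contra hcon
  push Not at hcon
  obtain ⟨i0, hi0⟩ := hcon
  -- extract δ
  rw [Metric.tendsto_atTop] at hi0
  push Not at hi0
  obtain ⟨δ, hδ, hfar⟩ := hi0
  have hfreq : ∀ N, ∃ n ≥ N, F i0 + δ ≤ x n i0 := by
    intro N
    obtain ⟨N1, hN1⟩ := eventually_atTop.mp (hFlow (δ / 2) (by linarith))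
    obtain ⟨n, hn, hd⟩ := hfar (max N N1)
    refine ⟨n, le_trans (le_max_left _ _) hn, ?_⟩
    have h1 := hN1 n (le_trans (le_max_right _ _) hn) i0
    rw [Real.dist_eq] at hd
    rcases le_abs.mp hd with h2 | h2
    · linarith
    · linarith
  obtain ⟨φ, hφ, hφ2⟩ := Filter.extraction_of_frequently_atTop
    (Filter.frequently_atTop.mpr hfreq)
  have hcpt : IsCompact (Set.univ.pi fun _ : ℤ => Set.Icc (0 : ℝ) 1) :=
    isCompact_univ_pi fun _ => isCompact_Icc
  obtain ⟨y, hy, ψ, hψ, hlim⟩ := hcpt.tendsto_subseq (x := fun n => x (φ n))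
    (fun n i _ => ⟨(hbox _ i).1, (hbox _ i).2⟩)
  have hybox : Box y := fun i => hy i (Set.mem_univ i)
  have hpt : ∀ i, Tendsto (fun n => x (φ (ψ n)) i) atTop (𝓝 (y i)) :=
    fun i => (tendsto_pi_nhds.mp hlim) i
  have hφψ : Tendsto (fun n => φ (ψ n)) atTop atTop := hφ.tendsto_atTop.comp hψ.tendsto_atTop
  have hFy : ∀ i, F i ≤ y i := by
    intro i
    refine le_of_forall_pos_le_add fun δ' hδ' => ?_
    have h1 : ∀ᶠ n in atTop, F i - δ' ≤ x (φ (ψ n)) i :=
      (hφψ.eventually (hFlow δ' hδ')).mono fun n hn => hn i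
    have := ge_of_tendsto (hpt i) h1
    linarith
  have hstrict : F i0 < y i0 := by
    have := ge_of_tendsto' (hpt i0) (fun n => hφ2 (ψ n))
    linarith
  -- iterate
  set K : ℕ := 8 + (i0 - k).natAbs with hK
  obtain ⟨hB, -, hS⟩ := iter_strict hF hybox hFy i0 hstrict K
  have hcontK : Continuous (Psi^[K]) := Psi_cont.iterate K
  have hlimK : Tendsto (fun n => Psi^[K] (x (φ (ψ n)))) atTop (𝓝 (Psi^[K] y)) :=
    (hcontK.tendsto y).comp hlim
  have hxK : ∀ m, Psi^[K] (x m) = x (m + K) := fun m => iter_x hx m K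
  -- gap on the window
  have hgap : ∃ κ > 0, ∀ i ∈ Finset.Icc (k - 8) (k + 8), F i + 2 * κ ≤ Psi^[K] y i := by
    have hne : (Finset.Icc (k - 8) (k + 8)).Nonempty := ⟨k, by simp⟩
    obtain ⟨m, hm, hmin⟩ := Finset.exists_min_image (Finset.Icc (k - 8) (k + 8))
      (fun i => Psi^[K] y i - F i) hne
    refine ⟨(Psi^[K] y m - F m) / 2, ?_, fun i hi => ?_⟩
    · rw [Finset.mem_Icc] at hm
      have := hS m (by omega) (by omega)
      linarith
    · have := hmin i hi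
      linarith
  obtain ⟨κ, hκ, hgap⟩ := hgap
  have hev : ∀ᶠ n in atTop, ∀ i ∈ Finset.Icc (k - 8) (k + 8), F i + κ ≤ x (φ (ψ n) + K) i := by
    rw [Filter.eventually_all_finset]
    intro i hi
    have h1 : Tendsto (fun n => x (φ (ψ n) + K) i) atTop (𝓝 (Psi^[K] y i)) := by
      have h2 := (tendsto_pi_nhds.mp hlimK) i
      simpa only [hxK] using h2
    have h2 := hgap i hi
    exact (h1.eventually (Ioi_mem_nhds (show F i + κ < Psi^[K] y i by linarith))).mono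
      fun n hn => le_of_lt hn
  set η := min (κ / 6) (1 / 8) with hη
  have hη0 : 0 < η := lt_min (by linarith) (by norm_num)
  have hη1 : η ≤ κ / 6 := min_le_left _ _
  have hη2 : η ≤ 1 / 8 := min_le_right _ _
  obtain ⟨Fp, hFp, hFpk⟩ := exists_orb k (α := F k + η) (by linarith) (by linarith)
  have hp : Pos F Fp k := ⟨hF, hFp, by linarith, by linarith, by linarith, by linarith, by linarith⟩
  set ε := 12 * (1 / 3 : ℝ) ^ 8 * η with hε
  have hε0 : 0 < ε := by positivity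
  have hlow2 : ∀ᶠ n in atTop, ∀ i, F i - 6 * (1 / 3 : ℝ) ^ 8 * η ≤ x (φ (ψ n) + K) i :=
    ((tendsto_add_atTop_nat K).comp hφψ).eventually (hFlow (6 * (1 / 3 : ℝ) ^ 8 * η) (by positivity))
  obtain ⟨n, hn1, hn2⟩ := (hev.and hlow2).exists
  have hε1 : ε ≤ η / 400 := by
    rw [hε]
    norm_num
    linarith
  obtain ⟨F₂, hF₂, hF₂k, hF₂l⟩ := iterA hbox0 hx hFp hε0.le (by linarith) (φ (ψ n) + K) (fun i => by
    by_cases hi : i ∈ Finset.Icc (k - 8) (k + 8)
    · have h1 := hn1 i hi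
      have h2 := hp.bound i
      rw [hFpk] at h2
      linarith
    · have h1 := hn2 i
      have h2 := hp.geom 8 i (by
        rw [Finset.mem_Icc] at hi
        push_cast
        rw [le_abs]
        omega)
      rw [hFpk] at h2
      have h3 : F k + η - F k = η := by ring
      rw [h3] at h2
      linarith) k (by
        rw [hFpk]
        linarith)
  rw [hFpk] at hF₂k
  have h1 : F k < F₂ k := by linarith
  have h2 : F 0 < F₂ 0 := (hF.lt_iff hF₂ k 0).mp h1
  have h3 : F₂ 0 ≤ α := le_csSup hAbdd ⟨F₂, hF₂, rfl, hF₂l⟩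
  linarith

end Pool.Agent.Q217.MM
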