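import Pool.Agent.Q217.MM.Orbit

set_option autoImplicit false

open Filter Topology

namespace Pool.Agent.Q217.MM

/-- increment factor -/
noncomputable def fac (F F' : ℤ → ℝ) (i : ℤ) : ℝ := 2 / (√(F' i) + √(F i)) - 1

theorem incr_next {F F' : ℤ → ℝ} (hF : Orb F) (hF' : Orb F') (i : ℤ) :
    F' (i + 1) - F (i + 1) = (F' i - F i) * fac F F' i := by
  rw [hF.next, hF'.next]
  exact h_sub (hF.pos i) (hF'.pos i)

theorem Orb.sqrt_pos {F : ℤ → ℝ} (hF : Orb F) (i : ℤ) : 0 < √(F i) := Real.sqrt_pos.mpr (hF.pos i)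

theorem Orb.sqrt_lt_one {F : ℤ → ℝ} (hF : Orb F) (i : ℤ) : √(F i) < 1 := by
  rw [Real.sqrt_lt' one_pos]
  linarith [hF.lt_one i]

theorem fac_pos {F F' : ℤ → ℝ} (hF : Orb F) (hF' : Orb F') (i : ℤ) : 0 < fac F F' i := by
  unfold fac
  have h1 := hF.sqrt_pos i
  have h2 := hF'.sqrt_pos i
  have h3 := hF.sqrt_lt_one i
  have h4 := hF'.sqrt_lt_one i
  have h5 : 1 < 2 / (√(F' i) + √(F i)) := by
    rw [lt_div_iff₀ (by linarith)]
    linarith
  linarith

theorem fac_anti {F F' : ℤ → ℝ} (hF : Orb F) (hF' : Orb F') {i j : ℤ} (hij : i ≤ j) :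
    fac F F' j ≤ fac F F' i := by
  unfold fac
  have h1 := hF.sqrt_pos i
  have h2 := hF'.sqrt_pos i
  have h3 : √(F i) ≤ √(F j) := Real.sqrt_le_sqrt (hF.strictMono.monotone hij)
  have h4 : √(F' i) ≤ √(F' j) := Real.sqrt_le_sqrt (hF'.strictMono.monotone hij)
  have h5 : 2 / (√(F' j) + √(F j)) ≤ 2 / (√(F' i) + √(F i)) :=
    div_le_div_of_nonneg_left (by norm_num) (by linarith) (by linarith)
  linarith

/-- `(1 - √F_{i})² = 1 - F_{i+1}` -/
theorem Orb.one_sub_sq {F : ℤ → ℝ} (hF : Orb F) (i : ℤ) : (1 - √(F i)) ^ 2 = 1 - F (i + 1) := by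
  rw [hF.next, one_sub_h (hF.pos i).le]

/-- the standing position of two neighbouring orbits -/
structure Pos (F F' : ℤ → ℝ) (k : ℤ) : Prop where
  orb : Orb F
  orb' : Orb F'
  le : F k ≤ F' k
  l1 : 1 / 8 ≤ F k
  l2 : F k ≤ 3 / 4
  l3 : 1 / 4 ≤ F' k
  l4 : F' k ≤ 7 / 8

theorem Pos.facts {F F' : ℤ → ℝ} {k : ℤ} (hp : Pos F F' k) :
    fac F F' k ≤ 2 ∧ 1 / 15 ≤ fac F F' k ∧ fac F F' (k + 1) ≤ 1 / 3 ∧
    1 / 2 ≤ fac F F' (k - 1) ∧ fac F F' (k - 1) ≤ 15 ∧ 3 ≤ fac F F' (k - 2) := by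
  obtain ⟨hF, hF', hle, l1, l2, l3, l4⟩ := hp
  -- square roots at k
  have a0 := hF.sqrt_pos k
  have b0 := hF'.sqrt_pos k
  have a1 : (1 / 3 : ℝ) ≤ √(F k) := Real.le_sqrt_of_sq_le (by norm_num; linarith)
  have b1 : (1 / 2 : ℝ) ≤ √(F' k) := Real.le_sqrt_of_sq_le (by norm_num; linarith)
  have a2 : √(F k) ≤ 867 / 1000 := Real.sqrt_le_iff.mpr ⟨by norm_num, by norm_num; linarith⟩
  have b2 : √(F' k) ≤ 936 / 1000 := Real.sqrt_le_iff.mpr ⟨by norm_num, by norm_num; linarith⟩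
  -- at k+1
  have c1 : 5 / 9 ≤ F (k + 1) := by
    have := hF.one_sub_sq k
    nlinarith [hF.sqrt_lt_one k]
  have d1 : 3 / 4 ≤ F' (k + 1) := by
    have := hF'.one_sub_sq k
    nlinarith [hF'.sqrt_lt_one k]
  have c2 : (74 / 100 : ℝ) ≤ √(F (k + 1)) := Real.le_sqrt_of_sq_le (by norm_num; linarith)
  have d2 : (86 / 100 : ℝ) ≤ √(F' (k + 1)) := Real.le_sqrt_of_sq_le (by norm_num; linarith)
  -- at k-1
  have e1 : k - 1 + 1 = k := by ring
  have p0 := hF.sqrt_pos (k - 1)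
  have q0 := hF'.sqrt_pos (k - 1)
  have p3 := hF.sqrt_lt_one (k - 1)
  have q3 := hF'.sqrt_lt_one (k - 1)
  have p1 : √(F (k - 1)) ≤ 1 / 2 := by
    have := hF.one_sub_sq (k - 1)
    rw [e1] at this
    nlinarith
  have q1 : √(F' (k - 1)) ≤ 65 / 100 := by
    have := hF'.one_sub_sq (k - 1)
    rw [e1] at this
    nlinarith
  have q2 : 133 / 1000 ≤ √(F' (k - 1)) := by
    have := hF'.one_sub_sq (k - 1)
    rw [e1] at this
    nlinarith
  -- at k-2
  have e2 : k - 2 + 1 = k - 1 := by ring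
  have r3 := hF.sqrt_lt_one (k - 2)
  have t3 := hF'.sqrt_lt_one (k - 2)
  have r0 := hF.sqrt_pos (k - 2)
  have t0 := hF'.sqrt_pos (k - 2)
  have p4 : F (k - 1) ≤ 1 / 4 := by
    have := Real.sq_sqrt (hF.pos (k - 1)).le
    nlinarith
  have q4 : F' (k - 1) ≤ 4225 / 10000 := by
    have := Real.sq_sqrt (hF'.pos (k - 1)).le
    nlinarith
  have r1 : √(F (k - 2)) ≤ 14 / 100 := by
    have := hF.one_sub_sq (k - 2)
    rw [e2] at this
    nlinarith
  have t1 : √(F' (k - 2)) ≤ 25 / 100 := by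
    have := hF'.one_sub_sq (k - 2)
    rw [e2] at this
    nlinarith
  unfold fac
  refine ⟨?_, ?_, ?_, ?_, ?_, ?_⟩
  · rw [sub_le_iff_le_add, div_le_iff₀ (by linarith)]
    linarith
  · rw [le_sub_iff_add_le, le_div_iff₀ (by linarith)]
    linarith
  · rw [sub_le_iff_le_add, div_le_iff₀ (by linarith)]
    linarith
  · rw [le_sub_iff_add_le, le_div_iff₀ (by linarith)]
    linarith
  · rw [sub_le_iff_le_add, div_le_iff₀ (by linarith)]
    linarith
  · rw [le_sub_iff_add_le, le_div_iff₀ (by linarith)]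
    linarith

theorem Pos.nonneg {F F' : ℤ → ℝ} {k : ℤ} (hp : Pos F F' k) (i : ℤ) : 0 ≤ F' i - F i := by
  have := (hp.orb.le_iff hp.orb' k i).mp hp.le
  linarith

theorem Pos.up {F F' : ℤ → ℝ} {k : ℤ} (hp : Pos F F' k) (m : ℕ) :
    F' (k + 1 + m) - F (k + 1 + m) ≤ 2 * (1 / 3) ^ m * (F' k - F k) := by
  have hf := hp.facts
  induction m with
  | zero =>
    have h1 := incr_next hp.orb hp.orb' k
    have h2 := hp.nonneg k
    simp only [Nat.cast_zero, add_zero, pow_zero, mul_one]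
    rw [h1]
    nlinarith [hf.1]
  | succ m ih =>
    have h1 := incr_next hp.orb hp.orb' (k + 1 + m)
    have e : k + 1 + ((m + 1 : ℕ) : ℤ) = k + 1 + m + 1 := by push_cast; ring
    rw [e, h1]
    have h2 : fac F F' (k + 1 + m) ≤ 1 / 3 :=
      (fac_anti hp.orb hp.orb' (by linarith [Int.natCast_nonneg m])).trans hf.2.2.1
    have h3 := hp.nonneg (k + 1 + m)
    have h4 := hp.nonneg k
    calc (F' (k + 1 + m) - F (k + 1 + m)) * fac F F' (k + 1 + m)
        ≤ (F' (k + 1 + m) - F (k + 1 + m)) * (1 / 3) := mul_le_mul_of_nonneg_left h2 h3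
      _ ≤ (2 * (1 / 3) ^ m * (F' k - F k)) * (1 / 3) := by linarith
      _ = 2 * (1 / 3) ^ (m + 1) * (F' k - F k) := by ring

theorem Pos.down {F F' : ℤ → ℝ} {k : ℤ} (hp : Pos F F' k) (m : ℕ) :
    F' (k - 1 - m) - F (k - 1 - m) ≤ 2 * (1 / 3) ^ m * (F' k - F k) := by
  have hf := hp.facts
  induction m with
  | zero =>
    have h1 := incr_next hp.orb hp.orb' (k - 1)
    have e : k - 1 + 1 = k := by ring
    rw [e] at h1
    have h2 := hp.nonneg (k - 1)
    simp only [Nat.cast_zero, sub_zero, pow_zero, mul_one]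
    rw [h1]
    nlinarith [hf.2.2.2.1]
  | succ m ih =>
    have h1 := incr_next hp.orb hp.orb' (k - 1 - ((m + 1 : ℕ) : ℤ))
    have e : k - 1 - ((m + 1 : ℕ) : ℤ) + 1 = k - 1 - m := by push_cast; ring
    rw [e] at h1
    have h2 : 3 ≤ fac F F' (k - 1 - ((m + 1 : ℕ) : ℤ)) :=
      hf.2.2.2.2.2.trans (fac_anti hp.orb hp.orb' (by push_cast; linarith [Int.natCast_nonneg m]))
    have h3 := hp.nonneg (k - 1 - ((m + 1 : ℕ) : ℤ))
    have h5 : (F' (k - 1 - ((m + 1 : ℕ) : ℤ)) - F (k - 1 - ((m + 1 : ℕ) : ℤ))) * 3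
        ≤ 2 * (1 / 3) ^ m * (F' k - F k) := by
      refine le_trans ?_ ih
      rw [h1]
      exact mul_le_mul_of_nonneg_left h2 h3
    rw [pow_succ]
    linarith

/-- geometric bound of the distance of neighbouring orbits -/
theorem Pos.geom {F F' : ℤ → ℝ} {k : ℤ} (hp : Pos F F' k) (M : ℕ) (i : ℤ) (hi : (M : ℤ) ≤ |i - k|) :
    F' i - F i ≤ 6 * (1 / 3) ^ M * (F' k - F k) := by
  have h0 := hp.nonneg k
  rcases lt_trichotomy i k with hlt | heq | hgt
  · obtain ⟨m, hm⟩ := Int.le.dest (show i ≤ k - 1 by omega)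
    have e : i = k - 1 - m := by omega
    have h1 := hp.down m
    rw [← e] at h1
    refine h1.trans ?_
    have h2 : M ≤ m + 1 := by
      rw [abs_of_neg (by omega)] at hi
      omega
    have h3 : ((1 : ℝ) / 3) ^ (m + 1) ≤ (1 / 3) ^ M :=
      pow_le_pow_of_le_one (by norm_num) (by norm_num) h2
    have h4 : 2 * (1 / 3 : ℝ) ^ m = 6 * (1 / 3) ^ (m + 1) := by rw [pow_succ]; ring
    rw [h4]
    exact mul_le_mul_of_nonneg_right (by linarith) h0
  · subst heq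
    rw [sub_self, abs_zero] at hi
    have hM : M = 0 := by omega
    subst hM
    rw [pow_zero]
    linarith
  · obtain ⟨m, hm⟩ := Int.le.dest (show k + 1 ≤ i by omega)
    have h1 := hp.up m
    rw [hm] at h1
    refine h1.trans ?_
    have h2 : M ≤ m + 1 := by
      rw [abs_of_pos (by omega)] at hi
      omega
    have h3 : ((1 : ℝ) / 3) ^ (m + 1) ≤ (1 / 3) ^ M :=
      pow_le_pow_of_le_one (by norm_num) (by norm_num) h2
    have h4 : 2 * (1 / 3 : ℝ) ^ m = 6 * (1 / 3) ^ (m + 1) := by rw [pow_succ]; ring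
    rw [h4]
    exact mul_le_mul_of_nonneg_right (by linarith) h0

theorem Pos.bound {F F' : ℤ → ℝ} {k : ℤ} (hp : Pos F F' k) (i : ℤ) :
    F' i - F i ≤ 6 * (F' k - F k) := by
  have := hp.geom 0 i (by exact_mod_cast abs_nonneg _)
  simpa using this

theorem Pos.mid_lower {F F' : ℤ → ℝ} {k : ℤ} (hp : Pos F F' k) (i : ℤ) (hi : k - 1 ≤ i)
    (hi' : i ≤ k + 1) : (F' k - F k) / 15 ≤ F' i - F i := by
  have hf := hp.facts
  have h0 := hp.nonneg k
  obtain rfl | rfl | rfl : i = k - 1 ∨ i = k ∨ i = k + 1 := by omega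
  · have h1 := incr_next hp.orb hp.orb' (k - 1)
    have e : k - 1 + 1 = k := by ring
    rw [e] at h1
    have h2 := hp.nonneg (k - 1)
    have h3 : (F' (k - 1) - F (k - 1)) * fac F F' (k - 1) ≤ (F' (k - 1) - F (k - 1)) * 15 :=
      mul_le_mul_of_nonneg_left hf.2.2.2.2.1 h2
    linarith
  · linarith
  · rw [incr_next hp.orb hp.orb' k]
    have := mul_le_mul_of_nonneg_left hf.2.1 h0
    linarith

end Pool.Agent.Q217.MM
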