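import Mathlib

set_option autoImplicit false

open Filter Topology

namespace Pool.Agent.Q217.MM

noncomputable def h (p : ℝ) : ℝ := 2 * √p - p

noncomputable def hinv (y : ℝ) : ℝ := (1 - √(1 - y)) ^ 2

theorem one_sub_h {p : ℝ} (hp : 0 ≤ p) : 1 - h p = (1 - √p) ^ 2 := by
  have := Real.sq_sqrt hp
  unfold h
  nlinarith

theorem h_pos {p : ℝ} (h0 : 0 < p) (h1 : p < 1) : 0 < h p := by
  have e := Real.sq_sqrt h0.le
  have s0 : 0 < √p := Real.sqrt_pos.mpr h0
  have s1 : √p < 1 := by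
    rw [Real.sqrt_lt' one_pos]
    linarith
  unfold h
  nlinarith

theorem h_lt_one {p : ℝ} (h0 : 0 < p) (h1 : p < 1) : h p < 1 := by
  have s1 : √p < 1 := by
    rw [Real.sqrt_lt' one_pos]
    linarith
  have := one_sub_h h0.le
  have : 0 < (1 - √p) ^ 2 := pow_pos (by linarith) 2
  linarith

theorem hinv_pos {y : ℝ} (h0 : 0 < y) (h1 : y < 1) : 0 < hinv y := by
  unfold hinv
  have s1 : √(1 - y) < 1 := by
    rw [Real.sqrt_lt' one_pos]
    linarith
  exact pow_pos (by linarith) 2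

theorem sqrt_hinv {y : ℝ} (h0 : 0 ≤ y) : √(hinv y) = 1 - √(1 - y) := by
  unfold hinv
  have s1 : √(1 - y) ≤ 1 := Real.sqrt_le_one.mpr (by linarith)
  exact Real.sqrt_sq (by linarith)

theorem hinv_lt_one {y : ℝ} (h0 : 0 < y) (h1 : y < 1) : hinv y < 1 := by
  unfold hinv
  have s0 : 0 < √(1 - y) := Real.sqrt_pos.mpr (by linarith)
  have s1 : √(1 - y) < 1 := by
    rw [Real.sqrt_lt' one_pos]
    linarith
  nlinarith

theorem h_hinv {y : ℝ} (h0 : 0 ≤ y) (h1 : y ≤ 1) : h (hinv y) = y := by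
  have e := sqrt_hinv h0
  have e2 := Real.sq_sqrt (by linarith : 0 ≤ 1 - y)
  unfold h
  rw [e]
  unfold hinv
  nlinarith

/-- increments of `h` -/
theorem h_sub {p q : ℝ} (hp : 0 < p) (hq : 0 < q) :
    h q - h p = (q - p) * (2 / (√q + √p) - 1) := by
  have e1 := Real.sq_sqrt hp.le
  have e2 := Real.sq_sqrt hq.le
  have s1 : 0 < √p := Real.sqrt_pos.mpr hp
  have s2 : 0 < √q := Real.sqrt_pos.mpr hq
  have e3 : q - p = (√q - √p) * (√q + √p) := by nlinarith
  have e4 : (q - p) * (2 / (√q + √p)) = 2 * (√q - √p) := by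
    rw [e3]
    field_simp
  rw [mul_sub, e4]
  unfold h
  ring

theorem h_strictMono {p q : ℝ} (hp : 0 < p) (hpq : p < q) (hq : q < 1) : h p < h q := by
  have s1 : √p < 1 := by
    rw [Real.sqrt_lt' one_pos]
    linarith
  have s2 : √q < 1 := by
    rw [Real.sqrt_lt' one_pos]
    linarith
  have s3 : √p < √q := Real.sqrt_lt_sqrt hp.le hpq
  have e1 := one_sub_h hp.le
  have e2 := one_sub_h (hp.trans hpq).le
  nlinarith

/-- two-sided orbits of `h` in `(0,1)` -/
structure Orb (F : ℤ → ℝ) : Prop where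
  pos : ∀ i, 0 < F i
  lt_one : ∀ i, F i < 1
  next : ∀ i, F (i + 1) = h (F i)

/-- the orbit through `α` at time `0` -/
noncomputable def orb (α : ℝ) : ℤ → ℝ
  | Int.ofNat n => h^[n] α
  | Int.negSucc n => hinv^[n + 1] α

theorem iter_h_mem {α : ℝ} (h0 : 0 < α) (h1 : α < 1) (n : ℕ) : 0 < h^[n] α ∧ h^[n] α < 1 := by
  induction n with
  | zero => exact ⟨h0, h1⟩
  | succ n ih =>
    rw [Function.iterate_succ_apply']
    exact ⟨h_pos ih.1 ih.2, h_lt_one ih.1 ih.2⟩

theorem iter_hinv_mem {α : ℝ} (h0 : 0 < α) (h1 : α < 1) (n : ℕ) :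
    0 < hinv^[n] α ∧ hinv^[n] α < 1 := by
  induction n with
  | zero => exact ⟨h0, h1⟩
  | succ n ih =>
    rw [Function.iterate_succ_apply']
    exact ⟨hinv_pos ih.1 ih.2, hinv_lt_one ih.1 ih.2⟩

theorem orb_orb {α : ℝ} (h0 : 0 < α) (h1 : α < 1) : Orb (orb α) where
  pos := by
    intro i
    cases i with
    | ofNat n => exact (iter_h_mem h0 h1 n).1
    | negSucc n => exact (iter_hinv_mem h0 h1 (n + 1)).1
  lt_one := by
    intro i
    cases i with
    | ofNat n => exact (iter_h_mem h0 h1 n).2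
    | negSucc n => exact (iter_hinv_mem h0 h1 (n + 1)).2
  next := by
    intro i
    cases i with
    | ofNat n =>
      have e : (Int.ofNat n + 1 : ℤ) = Int.ofNat (n + 1) := rfl
      rw [e]
      exact Function.iterate_succ_apply' h n α
    | negSucc n =>
      cases n with
      | zero =>
        have e : (Int.negSucc 0 + 1 : ℤ) = Int.ofNat 0 := rfl
        rw [e]
        exact (h_hinv h0.le h1.le).symm
      | succ n =>
        have e : (Int.negSucc (n + 1) + 1 : ℤ) = Int.negSucc n := by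
          simp [Int.negSucc_eq]
        rw [e]
        have h2 := iter_hinv_mem h0 h1 (n + 1)
        change hinv^[n + 1] α = h (hinv^[n + 1 + 1] α)
        rw [Function.iterate_succ_apply' hinv (n + 1) α, h_hinv h2.1.le h2.2.le]

theorem orb_zero (α : ℝ) : orb α 0 = α := rfl

theorem Orb.shift {F : ℤ → ℝ} (hF : Orb F) (k : ℤ) : Orb (fun i => F (i + k)) where
  pos := fun i => hF.pos _
  lt_one := fun i => hF.lt_one _
  next := fun i => by
    have e : i + 1 + k = i + k + 1 := by ring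
    show F (i + 1 + k) = h (F (i + k))
    rw [e]
    exact hF.next _

/-- there is an orbit with prescribed value at `k` -/
theorem exists_orb (k : ℤ) {α : ℝ} (h0 : 0 < α) (h1 : α < 1) : ∃ F, Orb F ∧ F k = α := by
  refine ⟨fun i => orb α (i + -k), (orb_orb h0 h1).shift (-k), ?_⟩
  simp [orb_zero]

theorem Orb.lt_iff_next {F F' : ℤ → ℝ} (hF : Orb F) (hF' : Orb F') (i : ℤ) :
    F i < F' i ↔ F (i + 1) < F' (i + 1) := by
  rw [hF.next, hF'.next]
  constructor
  · intro h1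
    exact h_strictMono (hF.pos i) h1 (hF'.lt_one i)
  · intro h1
    by_contra h2
    push Not at h2
    rcases h2.lt_or_eq with h3 | h3
    · have := h_strictMono (hF'.pos i) h3 (hF.lt_one i)
      linarith
    · rw [h3] at h1
      exact lt_irrefl _ h1

theorem Orb.lt_iff {F F' : ℤ → ℝ} (hF : Orb F) (hF' : Orb F') (i j : ℤ) :
    F i < F' i ↔ F j < F' j := by
  have key : ∀ (i : ℤ) (n : ℕ), F i < F' i ↔ F (i + n) < F' (i + n) := by
    intro i n
    induction n with
    | zero => simp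
    | succ n ih =>
      have h1 := hF.lt_iff_next hF' (i + n)
      have e : i + ((n + 1 : ℕ) : ℤ) = i + n + 1 := by push_cast; ring
      rw [e]
      exact ih.trans h1
  rcases le_total i j with hij | hij
  · obtain ⟨n, hn⟩ := Int.le.dest hij
    rw [← hn]
    exact key i n
  · obtain ⟨n, hn⟩ := Int.le.dest hij
    rw [← hn]
    exact (key j n).symm

theorem Orb.le_iff {F F' : ℤ → ℝ} (hF : Orb F) (hF' : Orb F') (i j : ℤ) :
    F i ≤ F' i ↔ F j ≤ F' j := by
  have := hF'.lt_iff hF i j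
  rw [← not_lt, ← not_lt, this]

theorem Orb.sqrt_eq {F : ℤ → ℝ} (hF : Orb F) (i : ℤ) : (F (i - 1) + F i) / 2 = √(F (i - 1)) := by
  have h1 := hF.next (i - 1)
  have e : i - 1 + 1 = i := by ring
  rw [e] at h1
  rw [h1]
  unfold h
  ring

theorem Orb.lt_next {F : ℤ → ℝ} (hF : Orb F) (i : ℤ) : F i < F (i + 1) := by
  rw [hF.next]
  have h0 := hF.pos i
  have h1 := hF.lt_one i
  have e := Real.sq_sqrt h0.le
  have s0 : 0 < √(F i) := Real.sqrt_pos.mpr h0
  have s1 : √(F i) < 1 := by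
    rw [Real.sqrt_lt' one_pos]
    linarith
  unfold h
  nlinarith

theorem Orb.strictMono {F : ℤ → ℝ} (hF : Orb F) : StrictMono F :=
  strictMono_int_of_lt_succ fun i => by exact_mod_cast hF.lt_next i

/-- `1 - F` decays to the right -/
theorem Orb.one_sub_next {F : ℤ → ℝ} (hF : Orb F) (i : ℤ) : 1 - F (i + 1) ≤ (1 - F i) ^ 2 := by
  rw [hF.next, one_sub_h (hF.pos i).le]
  have h0 := hF.pos i
  have h1 := hF.lt_one i
  have s1 : √(F i) < 1 := by
    rw [Real.sqrt_lt' one_pos]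
    linarith
  have s2 : F i ≤ √(F i) := by
    have e := Real.sq_sqrt h0.le
    have s0 : 0 < √(F i) := Real.sqrt_pos.mpr h0
    nlinarith
  exact pow_le_pow_left₀ (by linarith) (by linarith) 2

theorem Orb.prev_le {F : ℤ → ℝ} (hF : Orb F) (i : ℤ) : F i ≤ (F (i + 1)) ^ 2 := by
  have h1 := hF.next i
  have h0 := hF.pos i
  have h2 := hF.lt_one i
  have s1 : √(F i) < 1 := by
    rw [Real.sqrt_lt' one_pos]
    linarith
  have s0 : 0 < √(F i) := Real.sqrt_pos.mpr h0
  have e := Real.sq_sqrt h0.le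
  have h3 : √(F i) ≤ F (i + 1) := by
    rw [h1]
    unfold h
    nlinarith
  calc F i = √(F i) ^ 2 := e.symm
    _ ≤ (F (i + 1)) ^ 2 := pow_le_pow_left₀ s0.le h3 2

theorem Orb.tendsto_top {F : ℤ → ℝ} (hF : Orb F) : Tendsto F atTop (𝓝 1) := by
  have h1 : ∀ n : ℕ, 1 - F n ≤ (1 - F 0) ^ (n + 1) := by
    intro n
    induction n with
    | zero => simp
    | succ n ih =>
      have h2 := hF.one_sub_next n
      have h3 : 1 - F n ≤ 1 - F 0 := by
        have : F 0 ≤ F n := hF.strictMono.monotone (by positivity)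
        linarith
      have h4 : 0 < 1 - F n := by linarith [hF.lt_one n]
      have h5 : 0 < 1 - F 0 := by linarith [hF.lt_one 0]
      push_cast
      calc 1 - F (n + 1) ≤ (1 - F n) ^ 2 := h2
        _ = (1 - F n) * (1 - F n) := by ring
        _ ≤ (1 - F 0) ^ (n + 1) * (1 - F 0) := mul_le_mul ih h3 h4.le (by positivity)
        _ = (1 - F 0) ^ (n + 1 + 1) := by ring
  have h2 : Tendsto (fun n : ℕ => 1 - (1 - F 0) ^ (n + 1)) atTop (𝓝 1) := by
    have h3 : Tendsto (fun n : ℕ => (1 - F 0) ^ (n + 1)) atTop (𝓝 0) :=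
      (tendsto_pow_atTop_nhds_zero_of_lt_one (by linarith [hF.lt_one 0])
        (by linarith [hF.pos 0])).comp (tendsto_add_atTop_nat 1)
    simpa using h3.const_sub 1
  rw [Metric.tendsto_atTop]
  intro ε hε
  obtain ⟨N, hN⟩ := (Metric.tendsto_atTop.mp h2) ε hε
  refine ⟨N, fun n hn => ?_⟩
  have h3 := hN N le_rfl
  rw [Real.dist_eq, abs_lt] at h3 ⊢
  have h4 : F N ≤ F n := hF.strictMono.monotone hn
  have h5 := h1 N
  have h6 := hF.lt_one n
  constructor <;> linarith [h3.1]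

theorem Orb.tendsto_bot {F : ℤ → ℝ} (hF : Orb F) : Tendsto F atBot (𝓝 0) := by
  have h1 : ∀ n : ℕ, F (-n) ≤ (F 0) ^ (n + 1) := by
    intro n
    induction n with
    | zero => simp
    | succ n ih =>
      have h2 := hF.prev_le (-((n + 1 : ℕ) : ℤ))
      have e : -((n + 1 : ℕ) : ℤ) + 1 = -(n : ℤ) := by push_cast; ring
      rw [e] at h2
      have h3 : F (-n) ≤ F 0 := hF.strictMono.monotone (by
        have : (0 : ℤ) ≤ n := Int.natCast_nonneg n
        linarith)
      have h4 : 0 < F (-n) := hF.pos _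
      have h5 : 0 < F 0 := hF.pos 0
      calc F (-((n + 1 : ℕ) : ℤ)) ≤ (F (-n)) ^ 2 := h2
        _ = F (-n) * F (-n) := by ring
        _ ≤ (F 0) ^ (n + 1) * F 0 := mul_le_mul ih h3 h4.le (by positivity)
        _ = (F 0) ^ (n + 1 + 1) := by ring
  have h2 : Tendsto (fun n : ℕ => (F 0) ^ (n + 1)) atTop (𝓝 0) :=
    (tendsto_pow_atTop_nhds_zero_of_lt_one (hF.pos 0).le (hF.lt_one 0)).comp (tendsto_add_atTop_nat 1)
  rw [Metric.tendsto_nhds]
  intro ε hε
  obtain ⟨N, hN⟩ := (Metric.tendsto_atTop.mp h2) ε hε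
  filter_upwards [Filter.eventually_le_atBot (-(N : ℤ))] with n hn
  have h3 := hN N le_rfl
  rw [Real.dist_eq, abs_lt] at h3 ⊢
  have h4 : F n ≤ F (-N) := hF.strictMono.monotone hn
  have h5 := h1 N
  have h6 := hF.pos n
  constructor <;> linarith [h3.2]

theorem h_quarter : h (1 / 4) = 3 / 4 := by
  unfold h
  rw [show (1 / 4 : ℝ) = (1 / 2) ^ 2 by norm_num, Real.sqrt_sq (by norm_num)]
  norm_num

/-- every orbit visits `[1/4, 3/4)` -/
theorem Orb.exists_mid {F : ℤ → ℝ} (hF : Orb F) : ∃ k, 1 / 4 ≤ F k ∧ F k < 3 / 4 := by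
  have h1 : ∃ a : ℤ, F a < 1 / 4 :=
    (hF.tendsto_bot.eventually (Iio_mem_nhds (by norm_num : (0 : ℝ) < 1 / 4))).exists
  have h2 : ∃ b : ℤ, 1 / 4 ≤ F b :=
    (hF.tendsto_top.eventually (Ici_mem_nhds (by norm_num : (1 / 4 : ℝ) < 1))).exists
  obtain ⟨a, ha⟩ := h1
  obtain ⟨b, hb⟩ := h2
  obtain ⟨k, hk, hkm⟩ := Int.exists_least_of_bdd (P := fun z => 1 / 4 ≤ F z)
    ⟨a, fun z hz => by
      by_contra hlt
      push Not at hlt
      have := hF.strictMono.monotone hlt.le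
      linarith⟩ ⟨b, hb⟩
  refine ⟨k, hk, ?_⟩
  have h3 : F (k - 1) < 1 / 4 := by
    by_contra hle
    push Not at hle
    have := hkm (k - 1) hle
    linarith
  have h4 := hF.next (k - 1)
  have e : k - 1 + 1 = k := by ring
  rw [e] at h4
  rw [h4, ← h_quarter]
  exact h_strictMono (hF.pos _) h3 (by norm_num)

end Pool.Agent.Q217.MM
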