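import Pool.Agent.Q217.MM.Incr

set_option autoImplicit false

open Filter Topology

namespace Pool.Agent.Q217.MM

noncomputable def GG (x : ℤ → ℝ) (i : ℤ) : ℝ :=
  1 - (1 / 2) * (1 - (x (i - 1) + x i) / 2) ^ 2 - (1 / 2) * (1 - (x i + x (i + 1)) / 2) ^ 2

noncomputable def Psi (x : ℤ → ℝ) (i : ℤ) : ℝ := (GG x i) ^ 2

/-- unit box -/
def Box (x : ℤ → ℝ) : Prop := ∀ i, 0 ≤ x i ∧ x i ≤ 1

theorem GG_nonneg {x : ℤ → ℝ} (hx : Box x) (i : ℤ) : 0 ≤ GG x i := by
  unfold GG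
  have h1 := hx (i - 1)
  have h2 := hx i
  have h3 := hx (i + 1)
  nlinarith [mul_nonneg (by linarith : 0 ≤ (x (i - 1) + x i) / 2) (by linarith : 0 ≤ 2 - (x (i - 1) + x i) / 2),
    mul_nonneg (by linarith : 0 ≤ (x i + x (i + 1)) / 2) (by linarith : 0 ≤ 2 - (x i + x (i + 1)) / 2)]

theorem GG_le_one (x : ℤ → ℝ) (i : ℤ) : GG x i ≤ 1 := by
  unfold GG
  nlinarith [sq_nonneg (1 - (x (i - 1) + x i) / 2), sq_nonneg (1 - (x i + x (i + 1)) / 2)]

theorem Psi_box {x : ℤ → ℝ} (hx : Box x) : Box (Psi x) := fun i =>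
  ⟨sq_nonneg _, pow_le_one₀ (GG_nonneg hx i) (GG_le_one x i)⟩

theorem sq_anti {a b : ℝ} (hab : a ≤ b) (hb : b ≤ 1) : (1 - b) ^ 2 ≤ (1 - a) ^ 2 :=
  pow_le_pow_left₀ (by linarith) (by linarith) 2

theorem GG_mono {x y : ℤ → ℝ} (hy : Box y) (hxy : ∀ i, x i ≤ y i) (i : ℤ) :
    GG x i ≤ GG y i := by
  unfold GG
  have h1 := hxy (i - 1)
  have h2 := hxy i
  have h3 := hxy (i + 1)
  have b1 := hy (i - 1)
  have b2 := hy i
  have b3 := hy (i + 1)
  have k1 := sq_anti (a := (x (i - 1) + x i) / 2) (b := (y (i - 1) + y i) / 2) (by linarith) (by linarith)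
  have k2 := sq_anti (a := (x i + x (i + 1)) / 2) (b := (y i + y (i + 1)) / 2) (by linarith) (by linarith)
  linarith

theorem Psi_mono {x y : ℤ → ℝ} (hx : Box x) (hy : Box y) (hxy : ∀ i, x i ≤ y i) (i : ℤ) :
    Psi x i ≤ Psi y i :=
  pow_le_pow_left₀ (GG_nonneg hx i) (GG_mono hy hxy i) 2

theorem Orb.box {F : ℤ → ℝ} (hF : Orb F) : Box F := fun i => ⟨(hF.pos i).le, (hF.lt_one i).le⟩

theorem Orb.GG_eq {F : ℤ → ℝ} (hF : Orb F) (i : ℤ) : GG F i = √(F i) := by
  have h1 := hF.sqrt_eq i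
  have h2 := hF.sqrt_eq (i + 1)
  have e : i + 1 - 1 = i := by ring
  rw [e] at h2
  unfold GG
  rw [h1, h2, hF.one_sub_sq (i - 1), show i - 1 + 1 = i by ring, hF.one_sub_sq i]
  have h3 := hF.next i
  unfold h at h3
  linarith

theorem Orb.Psi_eq {F : ℤ → ℝ} (hF : Orb F) (i : ℤ) : Psi F i = F i := by
  unfold Psi
  rw [hF.GG_eq, Real.sq_sqrt (hF.pos i).le]

/-- lower perturbation of `GG` -/
theorem GG_lower {F x : ℤ → ℝ} (hF : Orb F) (hx : Box x) {ε : ℝ} (hε : 0 ≤ ε)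
    (h : ∀ i, F i - ε ≤ x i) (i : ℤ) :
    √(F i) - ε * ((1 - √(F (i - 1))) + (1 - √(F i)) + ε) ≤ GG x i := by
  have hg := hF.GG_eq i
  have h1 := hF.sqrt_eq i
  have h2 := hF.sqrt_eq (i + 1)
  rw [show i + 1 - 1 = i by ring] at h2
  have key : GG F i - ε * ((1 - (F (i - 1) + F i) / 2) + (1 - (F i + F (i + 1)) / 2) + ε) ≤ GG x i := by
    have a1 := h (i - 1)
    have a2 := h i
    have a3 := h (i + 1)
    have b1 := hx (i - 1)
    have b2 := hx i
    have b3 := hx (i + 1)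
    unfold GG
    have s1 := hF.sqrt_lt_one (i - 1)
    have s2 := hF.sqrt_lt_one i
    rw [← h1] at s1
    rw [← h2] at s2
    have k1 := sq_anti (a := (F (i - 1) + F i) / 2 - ε) (b := (x (i - 1) + x i) / 2) (by linarith) (by linarith)
    have k2 := sq_anti (a := (F i + F (i + 1)) / 2 - ε) (b := (x i + x (i + 1)) / 2) (by linarith) (by linarith)
    nlinarith
  rw [hg, h1, h2] at key
  exact key

/-- upper perturbation of `GG` -/
theorem GG_upper {F x : ℤ → ℝ} (hF : Orb F) (hx : Box x) {ε : ℝ} (hε : 0 ≤ ε)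
    (h : ∀ i, x i ≤ F i + ε) (i : ℤ) :
    GG x i ≤ √(F i) + ε * ((1 - √(F (i - 1))) + (1 - √(F i))) := by
  have hg := hF.GG_eq i
  have h1 := hF.sqrt_eq i
  have h2 := hF.sqrt_eq (i + 1)
  rw [show i + 1 - 1 = i by ring] at h2
  have a1 := h (i - 1)
  have a2 := h i
  have a3 := h (i + 1)
  have b1 := hx (i - 1)
  have b2 := hx i
  have b3 := hx (i + 1)
  have s1 := hF.sqrt_lt_one (i - 1)
  have s2 := hF.sqrt_lt_one i
  rw [← h1] at s1
  rw [← h2] at s2
  have key : GG x i ≤ GG F i + ε * ((1 - (F (i - 1) + F i) / 2) + (1 - (F i + F (i + 1)) / 2)) := by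
    unfold GG
    set U := (F (i - 1) + F i) / 2 with hU
    set V := (F i + F (i + 1)) / 2 with hV
    set X := (x (i - 1) + x i) / 2 with hX
    set Y := (x i + x (i + 1)) / 2 with hY
    have x1 : X ≤ 1 := by rw [hX]; linarith
    have y1 : Y ≤ 1 := by rw [hY]; linarith
    have x2 : X ≤ U + ε := by rw [hX, hU]; linarith
    have y2 : Y ≤ V + ε := by rw [hY, hV]; linarith
    have k1 : (1 - U) ^ 2 - 2 * ε * (1 - U) ≤ (1 - X) ^ 2 := by
      rcases le_total (1 - U) ε with hle | hle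
      · nlinarith [sq_nonneg (1 - X)]
      · have : 1 - U - ε ≤ 1 - X := by linarith
        nlinarith [pow_le_pow_left₀ (by linarith : 0 ≤ 1 - U - ε) this 2]
    have k2 : (1 - V) ^ 2 - 2 * ε * (1 - V) ≤ (1 - Y) ^ 2 := by
      rcases le_total (1 - V) ε with hle | hle
      · nlinarith [sq_nonneg (1 - Y)]
      · have : 1 - V - ε ≤ 1 - Y := by linarith
        nlinarith [pow_le_pow_left₀ (by linarith : 0 ≤ 1 - V - ε) this 2]
    nlinarith
  rw [hg, h1, h2] at key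
  exact key

theorem sq_lower {g s d : ℝ} (hg : 0 ≤ g) (hs : 0 ≤ s) (hd : 0 ≤ d) (h : s - d ≤ g) :
    s ^ 2 - 2 * s * d ≤ g ^ 2 := by
  rcases le_total s d with hle | hle
  · nlinarith [sq_nonneg g]
  · nlinarith [pow_le_pow_left₀ (by linarith : 0 ≤ s - d) h 2]

/-- position of the orbit: `1/4 ≤ F k < 3/4` -/
theorem Orb.tails {F : ℤ → ℝ} (hF : Orb F) {k : ℤ} (h1 : 1 / 4 ≤ F k) (h2 : F k < 3 / 4) :
    (∀ i ≤ k - 2, √(F i) ≤ 14 / 100) ∧ (∀ i, k + 1 ≤ i → 86 / 100 ≤ √(F i)) := by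
  have hp : Pos F F k := ⟨hF, hF, le_rfl, by linarith, h2.le, h1, by linarith⟩
  constructor
  · intro i hi
    have h3 : √(F i) ≤ √(F (k - 2)) := Real.sqrt_le_sqrt (hF.strictMono.monotone hi)
    refine h3.trans ?_
    have e2 : k - 2 + 1 = k - 1 := by ring
    have e1 : k - 1 + 1 = k := by ring
    have q1 : √(F (k - 1)) ≤ 1 / 2 := by
      have := hF.one_sub_sq (k - 1)
      rw [e1] at this
      nlinarith [hF.sqrt_lt_one (k - 1)]
    have p4 : F (k - 1) ≤ 1 / 4 := by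
      have := Real.sq_sqrt (hF.pos (k - 1)).le
      nlinarith [hF.sqrt_pos (k - 1)]
    have := hF.one_sub_sq (k - 2)
    rw [e2] at this
    nlinarith [hF.sqrt_lt_one (k - 2)]
  · intro i hi
    have h3 : √(F (k + 1)) ≤ √(F i) := Real.sqrt_le_sqrt (hF.strictMono.monotone hi)
    refine le_trans ?_ h3
    have d1 : 3 / 4 ≤ F (k + 1) := by
      have := hF.one_sub_sq k
      have b1 : (1 / 2 : ℝ) ≤ √(F k) := Real.le_sqrt_of_sq_le (by norm_num; linarith)
      nlinarith [hF.sqrt_lt_one k]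
    exact Real.le_sqrt_of_sq_le (by norm_num; linarith)

theorem Orb.mid_coeff {F : ℤ → ℝ} (hF : Orb F) (i : ℤ) :
    2 * √(F i) * ((1 - √(F (i - 1))) + (1 - √(F i))) ≤ 3 / 2 := by
  have h1 := hF.one_sub_sq (i - 1)
  rw [show i - 1 + 1 = i by ring] at h1
  have h2 := Real.sq_sqrt (hF.pos i).le
  set s := √(F i)
  set r := 1 - √(F (i - 1))
  -- s² + r² = 1
  have h3 : s ^ 2 + r ^ 2 = 1 := by rw [h2, h1]; ring
  nlinarith [sq_nonneg (s - r), sq_nonneg (s - 1 / 2)]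

/-- Lemma A: one step from below -/
theorem lemmaA {F : ℤ → ℝ} (hF : Orb F) {ε : ℝ} (hε : 0 ≤ ε) (hε1 : ε ≤ 1 / 128) :
    ∃ F', Orb F' ∧ (∀ i, F' i ≤ F i) ∧ (∀ i, F i ≤ F' i + 96 * ε) ∧
      ∀ x, Box x → (∀ i, F i - ε ≤ x i) → ∀ i, F' i - (3 / 4) * ε ≤ Psi x i := by
  obtain ⟨k, hk1, hk2⟩ := hF.exists_mid
  obtain ⟨F', hF', hFk⟩ := exists_orb k (α := F k - 16 * ε) (by linarith) (by linarith [hF.lt_one k])
  have hp : Pos F' F k := ⟨hF', hF, by linarith, by linarith, by linarith, hk1, by linarith⟩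
  refine ⟨F', hF', fun i => by linarith [hp.nonneg i], fun i => ?_, ?_⟩
  · have := hp.bound i
    rw [hFk] at this
    linarith
  · intro x hx hxF i
    have hG := GG_lower hF hx hε hxF i
    have hG0 := GG_nonneg hx i
    have s0 := hF.sqrt_pos i
    have s1 := hF.sqrt_lt_one i
    have r0 := hF.sqrt_pos (i - 1)
    have r1 := hF.sqrt_lt_one (i - 1)
    have hd : 0 ≤ ε * ((1 - √(F (i - 1))) + (1 - √(F i)) + ε) := by
      refine mul_nonneg hε ?_
      linarith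
    have h1 := sq_lower hG0 s0.le hd hG
    rw [Real.sq_sqrt (hF.pos i).le] at h1
    have h2 : Psi x i = GG x i ^ 2 := rfl
    rw [h2]
    refine le_trans ?_ h1
    have hnn := hp.nonneg i
    obtain ⟨tl, tr⟩ := hF.tails hk1 hk2
    rcases le_or_gt i (k - 2) with hi | hi
    · have h3 := tl i hi
      have h4 : 2 * √(F i) * ((1 - √(F (i - 1))) + (1 - √(F i)) + ε) ≤ 3 / 4 := by nlinarith
      nlinarith
    · rcases le_or_gt (k + 2) i with hi2 | hi2
      · have h3 := tr (i - 1) (by omega)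
        have h3' := tr i (by omega)
        have h4 : 2 * √(F i) * ((1 - √(F (i - 1))) + (1 - √(F i)) + ε) ≤ 3 / 4 := by nlinarith
        nlinarith
      · have h3 := hp.mid_lower i (by omega) (by omega)
        rw [hFk] at h3
        have h4 := hF.mid_coeff i
        have h5 : 2 * √(F i) * ((1 - √(F (i - 1))) + (1 - √(F i)) + ε) ≤ 7 / 4 := by nlinarith
        nlinarith

/-- Lemma B: one step from above -/
theorem lemmaB {F : ℤ → ℝ} (hF : Orb F) {ε : ℝ} (hε : 0 ≤ ε) (hε1 : ε ≤ 1 / 128) :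
    ∃ F', Orb F' ∧ (∀ i, F i ≤ F' i) ∧ (∀ i, F' i ≤ F i + 96 * ε) ∧
      ∀ x, Box x → (∀ i, x i ≤ F i + ε) → ∀ i, Psi x i ≤ F' i + (3 / 4) * ε := by
  obtain ⟨k, hk1, hk2⟩ := hF.exists_mid
  obtain ⟨F', hF', hFk⟩ := exists_orb k (α := F k + 16 * ε) (by linarith) (by linarith)
  have hp : Pos F F' k := ⟨hF, hF', by linarith, by linarith, by linarith, by linarith, by linarith⟩
  refine ⟨F', hF', fun i => by linarith [hp.nonneg i], fun i => ?_, ?_⟩
  · have := hp.bound i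
    rw [hFk] at this
    linarith
  · intro x hx hxF i
    have hG := GG_upper hF hx hε hxF i
    have hG0 := GG_nonneg hx i
    have s0 := hF.sqrt_pos i
    have s1 := hF.sqrt_lt_one i
    have r0 := hF.sqrt_pos (i - 1)
    have r1 := hF.sqrt_lt_one (i - 1)
    set c := (1 - √(F (i - 1))) + (1 - √(F i)) with hc
    have hc0 : 0 ≤ c := by rw [hc]; linarith
    have hc2 : c ≤ 2 := by rw [hc]; linarith
    have h1 : Psi x i ≤ F i + ε * ((2 * √(F i) + 2 * ε) * c) := by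
      have h2 : Psi x i = GG x i ^ 2 := rfl
      rw [h2]
      have h3 := pow_le_pow_left₀ hG0 hG 2
      have h4 := Real.sq_sqrt (hF.pos i).le
      have h5 : ε * c * (ε * c) ≤ ε * (2 * ε * c) := by nlinarith [mul_nonneg hε hc0]
      nlinarith
    refine h1.trans ?_
    have hnn := hp.nonneg i
    obtain ⟨tl, tr⟩ := hF.tails hk1 hk2
    rcases le_or_gt i (k - 2) with hi | hi
    · have h3 := tl i hi
      have h4 : (2 * √(F i) + 2 * ε) * c ≤ 3 / 4 := by nlinarith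
      nlinarith
    · rcases le_or_gt (k + 2) i with hi2 | hi2
      · have h3 := tr (i - 1) (by omega)
        have h3' := tr i (by omega)
        have hc3 : c ≤ 28 / 100 := by rw [hc]; linarith
        have h4 : (2 * √(F i) + 2 * ε) * c ≤ 3 / 4 := by nlinarith
        nlinarith
      · have h3 := hp.mid_lower i (by omega) (by omega)
        rw [hFk] at h3
        have h4 := hF.mid_coeff i
        rw [← hc] at h4
        have h5 : (2 * √(F i) + 2 * ε) * c ≤ 7 / 4 := by nlinarith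
        nlinarith

end Pool.Agent.Q217.MM
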